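import Pool.Agent.Q197.WC.Select

/-!
# The differences of the selected sequence form a basic sequence
-/

set_option autoImplicit false

namespace Pool.Agent.Q197.WC

open Finset Filter Topology NormedSpace

variable {X W : Type*} [NormedAddCommGroup X] [NormedSpace ℝ X] [NormedAddCommGroup W]
  [NormedSpace ℝ W]

/-- Partial sums of the series with coefficients `a` of the differences of `s`. -/
def VV (s : ℕ → X) (a : ℕ → ℝ) (n : ℕ) : X := ∑ j ∈ range n, a j • (s (j + 1) - s j)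

lemma VV_succ (s : ℕ → X) (a : ℕ → ℝ) (n : ℕ) :
    VV s a (n + 1) = VV s a n + a n • (s (n + 1) - s n) := sum_range_succ _ _

lemma VV_mem (s : ℕ → X) (a : ℕ → ℝ) (n : ℕ) : VV s a n ∈ Submodule.span ℝ (s '' {i | i ≤ n}) := by
  refine Submodule.sum_mem _ fun j hj => Submodule.smul_mem _ _ (Submodule.sub_mem _ ?_ ?_)
  · exact Submodule.subset_span ⟨j + 1, mem_range.1 hj, rfl⟩
  · exact Submodule.subset_span ⟨j, (mem_range.1 hj).le, rfl⟩

/-- The main estimate. -/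
lemma est {s : ℕ → X} {Φ : ℕ → Finset (StrongDual ℝ X)} {xx : W} {J : X →ₗᵢ[ℝ] W}
    {ev : StrongDual ℝ X → W →ₗ[ℝ] ℝ} (hev : ∀ φ x, ev φ (J x) = φ x)
    {d : ℝ} (hd : 0 < d)
    (h1 : ∀ n, ∀ φ ∈ Φ n, ‖φ‖ ≤ 1)
    (h2 : ∀ n, ∀ z ∈ Submodule.span ℝ (insert xx (J '' (s '' {i | i ≤ n}))),
      ∃ φ ∈ Φ n, ‖z‖ ≤ 2 * |ev φ z|)
    (h3 : ∀ n, ∀ φ ∈ Φ n, ∀ i, n < i → |φ (s i) - ev φ xx| < d / 16 * (1 / 2) ^ i)
    (a : ℕ → ℝ) (A : ℝ) (N n : ℕ) (hn : n < N) (hA : ∀ j, j < N → |a j| ≤ A) :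
    ‖a n • xx + J (VV s a n - a n • s n)‖ ≤
      2 * ‖VV s a N‖ + A * d / 4 := by
  have hA0 : 0 ≤ A := (abs_nonneg _).trans (hA n hn)
  set z : W :=
    a n • xx + J (VV s a n - a n • s n) with hz
  have hmem : z ∈ Submodule.span ℝ
      (insert xx (J '' (s '' {i | i ≤ n}))) := by
    refine Submodule.add_mem _ (Submodule.smul_mem _ _ (Submodule.subset_span
      (Set.mem_insert _ _))) ?_
    have h4 : VV s a n - a n • s n ∈ Submodule.span ℝ (s '' {i | i ≤ n}) :=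
      Submodule.sub_mem _ (VV_mem s a n) (Submodule.smul_mem _ _ (Submodule.subset_span
        ⟨n, le_refl n, rfl⟩))
    have h5 : J (VV s a n - a n • s n) ∈
        Submodule.map (J : X →ₗ[ℝ] W) (Submodule.span ℝ (s '' {i | i ≤ n})) :=
      Submodule.mem_map_of_mem h4
    rw [Submodule.map_span] at h5
    exact Submodule.span_mono (Set.subset_insert _ _) h5
  obtain ⟨φ, hφ, hzφ⟩ := h2 n z hmem
  have e0 : ∀ i, n < i → |φ (s i) - ev φ xx| ≤ d / 16 * (1 / 2) ^ i := fun i hi => (h3 n φ hφ i hi).le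
  have hzval : ev φ z = a n * ev φ xx + (φ (VV s a n) - a n * φ (s n)) := by
    rw [hz, map_add, map_smul, hev, map_sub, map_smul, smul_eq_mul, smul_eq_mul]
  have key : ∀ m, n + 1 ≤ m → m ≤ N →
      |φ (VV s a m) - ev φ z| ≤ A * (d / 16) * (2 * (1 / 2) ^ n - 3 * (1 / 2) ^ m) := by
    intro m hm
    induction m, hm using Nat.le_induction with
    | base =>
      intro hmN
      have e1 : φ (VV s a (n + 1)) - ev φ z = a n * (φ (s (n + 1)) - ev φ xx) := by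
        rw [VV_succ, map_add, map_smul, map_sub, hzval, smul_eq_mul]
        ring
      rw [e1, abs_mul]
      have e2 := e0 (n + 1) (Nat.lt_succ_self n)
      have e3 := hA n hn
      calc |a n| * |φ (s (n + 1)) - ev φ xx| ≤ A * (d / 16 * (1 / 2) ^ (n + 1)) :=
            mul_le_mul e3 e2 (abs_nonneg _) hA0
        _ = _ := by rw [pow_succ]; ring
    | succ m hm ih =>
      intro hmN
      have ih' := ih (by omega)
      have e1 : φ (VV s a (m + 1)) - ev φ z = (φ (VV s a m) - ev φ z) +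
          a m * ((φ (s (m + 1)) - ev φ xx) - (φ (s m) - ev φ xx)) := by
        rw [VV_succ, map_add, map_smul, map_sub, smul_eq_mul]
        ring
      have e2 := e0 (m + 1) (by omega)
      have e3 := e0 m (by omega)
      have e4 := hA m (by omega)
      have e5 : |(φ (s (m + 1)) - ev φ xx) - (φ (s m) - ev φ xx)| ≤
          d / 16 * (1 / 2) ^ (m + 1) + d / 16 * (1 / 2) ^ m :=
        (abs_sub _ _).trans (add_le_add e2 e3)
      rw [e1]
      refine (abs_add_le _ _).trans ?_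
      rw [abs_mul]
      have e6 : |a m| * |(φ (s (m + 1)) - ev φ xx) - (φ (s m) - ev φ xx)| ≤
          A * (d / 16 * (1 / 2) ^ (m + 1) + d / 16 * (1 / 2) ^ m) :=
        mul_le_mul e4 e5 (abs_nonneg _) hA0
      refine (add_le_add ih' e6).trans (le_of_eq ?_)
      rw [pow_succ]
      ring
  have k1 := key N hn le_rfl
  have k2 : |φ (VV s a N)| ≤ ‖VV s a N‖ := by
    have := φ.le_opNorm (VV s a N)
    rw [Real.norm_eq_abs] at this
    exact this.trans ((mul_le_mul_of_nonneg_right (h1 n φ hφ) (norm_nonneg _)).trans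
      (le_of_eq (one_mul _)))
  have k3 : |ev φ z| ≤ |φ (VV s a N)| + |φ (VV s a N) - ev φ z| := by
    have := abs_sub_abs_le_abs_sub (ev φ z) (φ (VV s a N))
    rw [abs_sub_comm (ev φ z)] at this
    linarith
  have k4 : A * (d / 16) * (2 * (1 / 2) ^ n - 3 * (1 / 2) ^ N) ≤ A * (d / 16) * 2 := by
    refine mul_le_mul_of_nonneg_left ?_ (by positivity)
    have : ((1 : ℝ) / 2) ^ n ≤ 1 := pow_le_one₀ (by norm_num) (by norm_num)
    have : (0 : ℝ) ≤ (1 / 2) ^ N := by positivity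
    linarith
  linarith

/-- The coefficients and the partial sums are controlled. -/
lemma coeff_bound {s : ℕ → X} {Φ : ℕ → Finset (StrongDual ℝ X)}
    {xx : W} {J : X →ₗᵢ[ℝ] W}
    {ev : StrongDual ℝ X → W →ₗ[ℝ] ℝ} (hev : ∀ φ x, ev φ (J x) = φ x) {d : ℝ} (hd : 0 < d)
    (hdist : ∀ x : X, d ≤ ‖xx - J x‖)
    (h1 : ∀ n, ∀ φ ∈ Φ n, ‖φ‖ ≤ 1)
    (h2 : ∀ n, ∀ z ∈ Submodule.span ℝ (insert xx (J '' (s '' {i | i ≤ n}))),
      ∃ φ ∈ Φ n, ‖z‖ ≤ 2 * |ev φ z|)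
    (h3 : ∀ n, ∀ φ ∈ Φ n, ∀ i, n < i → |φ (s i) - ev φ xx| < d / 16 * (1 / 2) ^ i)
    (a : ℕ → ℝ) (N n : ℕ) (hn : n < N) : |a n| ≤ 4 / d * ‖VV s a N‖ := by
  have hne : (range N).Nonempty := ⟨n, mem_range.2 hn⟩
  obtain ⟨k, hk, hmax⟩ := exists_max_image (range N) (fun j => |a j|) hne
  rw [mem_range] at hk
  have hA : ∀ j, j < N → |a j| ≤ |a k| := fun j hj => hmax j (mem_range.2 hj)
  have e1 := est hev hd h1 h2 h3 a |a k| N k hk hA
  have e2 : |a k| * d ≤ ‖a k • xx + J (VV s a k - a k • s k)‖ := by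
    by_cases h0 : a k = 0
    · rw [h0, abs_zero, zero_mul]
      exact norm_nonneg _
    · have e3 : a k • xx + J (VV s a k - a k • s k) =
          a k • (xx - J (-((a k)⁻¹ • (VV s a k - a k • s k)))) := by
        rw [map_neg, sub_neg_eq_add, smul_add, ← map_smul, smul_smul, mul_inv_cancel₀ h0, one_smul]
      rw [e3]
      have e4 : ‖a k • (xx - J (-((a k)⁻¹ • (VV s a k - a k • s k))))‖ =
          |a k| * ‖xx - J (-((a k)⁻¹ • (VV s a k - a k • s k)))‖ := by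
        rw [← Real.norm_eq_abs]
        exact norm_smul _ _
      rw [e4]
      exact mul_le_mul_of_nonneg_left (hdist _) (abs_nonneg _)
  have e5 : |a k| * d ≤ 4 * ‖VV s a N‖ := by
    have : 0 ≤ ‖VV s a N‖ := norm_nonneg _
    nlinarith [mul_nonneg (abs_nonneg (a k)) hd.le]
  refine (hA n hn).trans ?_
  rw [div_mul_eq_mul_div, le_div_iff₀ hd]
  exact e5

lemma partial_bound {s : ℕ → X} {Φ : ℕ → Finset (StrongDual ℝ X)}
    {xx : W} {J : X →ₗᵢ[ℝ] W}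
    {ev : StrongDual ℝ X → W →ₗ[ℝ] ℝ} (hev : ∀ φ x, ev φ (J x) = φ x) {d R : ℝ} (hd : 0 < d)
    (hdist : ∀ x : X, d ≤ ‖xx - J x‖)
    (h1 : ∀ n, ∀ φ ∈ Φ n, ‖φ‖ ≤ 1)
    (h2 : ∀ n, ∀ z ∈ Submodule.span ℝ (insert xx (J '' (s '' {i | i ≤ n}))),
      ∃ φ ∈ Φ n, ‖z‖ ≤ 2 * |ev φ z|)
    (h3 : ∀ n, ∀ φ ∈ Φ n, ∀ i, n < i → |φ (s i) - ev φ xx| < d / 16 * (1 / 2) ^ i)
    (hR : ∀ n, ‖s n‖ ≤ R)
    (a : ℕ → ℝ) (N n : ℕ) (hn : n ≤ N) :
    ‖VV s a n‖ ≤ (3 + 4 / d * (‖xx‖ + R)) * ‖VV s a N‖ := by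
  have hR0 : 0 ≤ R := (norm_nonneg _).trans (hR 0)
  have hxx0 : 0 ≤ ‖xx‖ := norm_nonneg _
  rcases hn.eq_or_lt with h | h
  · rw [h]
    have : 0 ≤ 4 / d * (‖xx‖ + R) := by positivity
    nlinarith [norm_nonneg (VV s a N)]
  have hA : ∀ j, j < N → |a j| ≤ 4 / d * ‖VV s a N‖ :=
    fun j hj => coeff_bound hev hd hdist h1 h2 h3 a N j hj
  have e1 := est hev hd h1 h2 h3 a _ N n h hA
  have e2 := hA n h
  have e3 : ‖VV s a n‖ ≤ ‖a n • xx + J (VV s a n - a n • s n)‖ +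
      |a n| * ‖xx‖ + |a n| * ‖s n‖ := by
    have f1 : ‖J (VV s a n)‖ = ‖VV s a n‖ :=
      J.norm_map _
    have f2 : J (VV s a n) =
        (a n • xx + J (VV s a n - a n • s n)) -
          (a n • xx - J (a n • s n)) := by
      rw [map_sub]
      abel
    have f3 : ‖J (a n • s n)‖ = |a n| * ‖s n‖ := by
      rw [← Real.norm_eq_abs, ← norm_smul]
      exact J.norm_map _
    have f4 : ‖a n • xx‖ = |a n| * ‖xx‖ := by
      rw [← Real.norm_eq_abs]
      exact norm_smul _ _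
    rw [← f1, f2]
    refine (norm_sub_le _ _).trans ?_
    rw [add_assoc]
    refine add_le_add le_rfl ((norm_sub_le _ _).trans ?_)
    exact add_le_add f4.le f3.le
  have e4 : |a n| * ‖xx‖ ≤ 4 / d * ‖VV s a N‖ * ‖xx‖ := mul_le_mul_of_nonneg_right e2 hxx0
  have e5 : |a n| * ‖s n‖ ≤ 4 / d * ‖VV s a N‖ * R :=
    mul_le_mul e2 (hR n) (norm_nonneg _) (by positivity)
  have e6 : 4 / d * ‖VV s a N‖ * d / 4 = ‖VV s a N‖ := by field_simp
  rw [e6] at e1
  linarith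

end Pool.Agent.Q197.WC
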