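import Pool.Agent.Q197.WC.Basic
import Mathlib.Analysis.Normed.Operator.Bilinear
import Mathlib.Analysis.Convex.Topology
import Mathlib.Analysis.SpecificLimits.Basic
import Mathlib.Analysis.SpecificLimits.Normed
import Mathlib.LinearAlgebra.Basis.Basic

/-!
# The fixed-point-free uniformly Lipschitz affine map
-/

set_option autoImplicit false

namespace Pool.Agent.Q197.WC

open Finset Filter Topology NormedSpace

variable {X : Type*} [NormedAddCommGroup X] [NormedSpace ℝ X]

lemma VV_of_finset (s : ℕ → X) (S : Finset ℕ) (g : ℕ → ℝ) :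
    ∃ N, (∀ i ∈ S, i < N) ∧ VV s (fun i => if i ∈ S then g i else 0) N =
      ∑ i ∈ S, g i • (s (i + 1) - s i) := by
  refine ⟨S.sup id + 1, fun i hi => Nat.lt_succ_of_le (le_sup (f := id) hi), ?_⟩
  unfold VV
  have h1 : S ⊆ range (S.sup id + 1) := fun i hi =>
    mem_range.2 (Nat.lt_succ_of_le (le_sup (f := id) hi))
  rw [← sum_subset h1 (fun i _ hi => by simp only [if_neg hi, zero_smul])]
  exact sum_congr rfl fun i hi => by simp only [if_pos hi]

section

variable {s : ℕ → X} {D : ℝ} (hD : ∀ (a : ℕ → ℝ) (N n : ℕ), n < N → |a n| ≤ D * ‖VV s a N‖)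

include hD

lemma linInd : LinearIndependent ℝ (fun j : ℕ => s (j + 1) - s j) := by
  rw [linearIndependent_iff']
  intro S g hg i hi
  obtain ⟨N, hN, hV⟩ := VV_of_finset s S g
  have h1 := hD (fun i => if i ∈ S then g i else 0) N i (hN i hi)
  rw [hV, hg, norm_zero, mul_zero] at h1
  simp only [if_pos hi] at h1
  exact abs_nonpos_iff.1 h1

/-- Biorthogonal functionals. -/
lemma exists_fun (hD0 : 0 ≤ D) : ∃ u : ℕ → StrongDual ℝ X,
    (∀ i j, u j (s (i + 1) - s i) = if i = j then 1 else 0) ∧ ∀ j, ‖u j‖ ≤ D := by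
  classical
  have hli := linInd hD
  let b := Module.Basis.span hli
  have hb : ∀ i, ((b i : Submodule.span ℝ (Set.range fun j : ℕ => s (j + 1) - s j)) : X) =
      s (i + 1) - s i := fun i => congrArg Subtype.val (Module.Basis.span_apply hli i)
  have hbound : ∀ (j : ℕ) (v : Submodule.span ℝ (Set.range fun j : ℕ => s (j + 1) - s j)),
      ‖b.coord j v‖ ≤ D * ‖v‖ := by
    intro j v
    have h1 : (v : X) = ∑ i ∈ (b.repr v).support, b.repr v i • (s (i + 1) - s i) := by
      have h2 := b.linearCombination_repr v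
      rw [Finsupp.linearCombination_apply, Finsupp.sum] at h2
      have h3 := congrArg (Submodule.subtype _) h2
      rw [map_sum] at h3
      simp only [map_smul, Submodule.subtype_apply, hb] at h3
      exact h3.symm
    obtain ⟨N, hN, hV⟩ := VV_of_finset s (b.repr v).support (fun i => b.repr v i)
    rw [← h1] at hV
    change ‖b.repr v j‖ ≤ _
    by_cases hj : j ∈ (b.repr v).support
    · have h4 := hD (fun i => if i ∈ (b.repr v).support then b.repr v i else 0) N j (hN j hj)
      rw [hV] at h4
      simp only [if_pos hj] at h4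
      exact h4
    · rw [Finsupp.notMem_support_iff.1 hj, norm_zero]
      positivity
  choose u hu1 hu2 using fun j => exists_extension_norm_eq
    (Submodule.span ℝ (Set.range fun j : ℕ => s (j + 1) - s j))
    (LinearMap.mkContinuous (b.coord j) D (hbound j))
  refine ⟨u, fun i j => ?_, fun j => ?_⟩
  · have h1 := hu1 j (b i)
    rw [hb] at h1
    rw [h1]
    change b.coord j (b i) = _
    rw [Module.Basis.coord_apply, Module.Basis.repr_self, Finsupp.single_apply]
  · rw [hu2 j]
    exact LinearMap.mkContinuous_norm_le _ hD0 _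

end

/-- Multiplication by a nondecreasing sequence. -/
lemma mult_bound {s : ℕ → X} {B : ℝ}
    (hB : ∀ (a : ℕ → ℝ) (N n : ℕ), n ≤ N → ‖VV s a n‖ ≤ B * ‖VV s a N‖) (μ : ℕ → ℝ)
    (hμ : Monotone μ) (h0 : ∀ j, 0 ≤ μ j) (h1 : ∀ j, μ j ≤ 1) (a : ℕ → ℝ) (N : ℕ) :
    ‖VV s (fun j => μ j * a j) N‖ ≤ 2 * B * ‖VV s a N‖ := by
  have hM : 0 ≤ B * ‖VV s a N‖ := (norm_nonneg _).trans (hB a N N le_rfl)
  have key : ∀ n, n ≤ N → ‖VV s (fun j => μ j * a j) n - μ n • VV s a n‖ ≤
      (μ n - μ 0) * (B * ‖VV s a N‖) := by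
    intro n
    induction n with
    | zero => intro _; simp [VV]
    | succ n ih =>
      intro hn
      have ih' := ih (by omega)
      have e : VV s (fun j => μ j * a j) (n + 1) - μ (n + 1) • VV s a (n + 1) =
          (VV s (fun j => μ j * a j) n - μ n • VV s a n) -
            (μ (n + 1) - μ n) • VV s a (n + 1) := by
        rw [VV_succ, VV_succ]
        module
      rw [e]
      refine (norm_sub_le _ _).trans ?_
      rw [norm_smul, Real.norm_of_nonneg (sub_nonneg.2 (hμ (Nat.le_succ n)))]
      have e2 := mul_le_mul_of_nonneg_left (hB a N (n + 1) hn)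
        (sub_nonneg.2 (hμ (Nat.le_succ n)))
      linarith
  have k1 := key N le_rfl
  have k2 : ‖VV s (fun j => μ j * a j) N‖ ≤ ‖VV s (fun j => μ j * a j) N - μ N • VV s a N‖ +
      ‖μ N • VV s a N‖ := by
    have := norm_add_le (VV s (fun j => μ j * a j) N - μ N • VV s a N) (μ N • VV s a N)
    rwa [sub_add_cancel] at this
  have k3 : ‖μ N • VV s a N‖ ≤ B * ‖VV s a N‖ := by
    rw [norm_smul, Real.norm_of_nonneg (h0 N)]
    exact (mul_le_of_le_one_left (norm_nonneg _) (h1 N)).trans (hB a N N le_rfl)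
  have k4 : (μ N - μ 0) * (B * ‖VV s a N‖) ≤ 1 * (B * ‖VV s a N‖) :=
    mul_le_mul_of_nonneg_right (by linarith [h0 0, h1 N]) hM
  linarith

/-- The weights. -/
noncomputable def ee (j : ℕ) : ℝ := (1 / 2) ^ (j + 1)

lemma ee_pos (j : ℕ) : 0 < ee j := by unfold ee; positivity

lemma ee_anti (j : ℕ) : ee (j + 1) ≤ ee j := by
  unfold ee
  rw [pow_succ _ (j + 1)]
  have : (0 : ℝ) ≤ (1 / 2) ^ (j + 1) := by positivity
  linarith

lemma ee_le (j : ℕ) : ee j ≤ 1 / 2 := by
  unfold ee
  rw [pow_succ]
  have : ((1 : ℝ) / 2) ^ j ≤ 1 := pow_le_one₀ (by norm_num) (by norm_num)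
  linarith

lemma ee_summable : Summable ee := by
  unfold ee
  exact (summable_nat_add_iff 1).2 summable_geometric_two

/-- The points `y_m` lie in `K`. -/
lemma mem_hull {s : ℕ → X} {K : Set X} (hK : Convex ℝ K) (hs : ∀ n, s n ∈ K) (n : ℕ) :
    ∀ m, n ≤ m → s n + ∑ j ∈ Ico n m, ee j • (s (j + 1) - s j) ∈ K := by
  have key : ∀ m, n ≤ m → ∃ q ∈ K, s n + ∑ j ∈ Ico n m, ee j • (s (j + 1) - s j) =
      (1 - ee m) • q + ee m • s m := by
    intro m hm
    induction m, hm using Nat.le_induction with
    | base =>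
      refine ⟨s n, hs n, ?_⟩
      rw [Ico_self, sum_empty]
      module
    | succ m hm ih =>
      obtain ⟨q, hq, he⟩ := ih
      have p1 : 0 < 1 - ee (m + 1) := by linarith [ee_le (m + 1)]
      refine ⟨((1 - ee m) / (1 - ee (m + 1))) • q +
        ((ee m - ee (m + 1)) / (1 - ee (m + 1))) • s (m + 1), ?_, ?_⟩
      · refine hK hq (hs _) (div_nonneg (by linarith [ee_le m]) p1.le)
          (div_nonneg (by linarith [ee_anti m]) p1.le) ?_
        rw [← add_div]
        rw [div_eq_one_iff_eq p1.ne']
        ring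
      · rw [sum_Ico_succ_top hm, ← add_assoc, he, smul_add, smul_smul, smul_smul,
          mul_div_cancel₀ _ p1.ne', mul_div_cancel₀ _ p1.ne']
        module
  intro m hm
  obtain ⟨q, hq, he⟩ := key m hm
  rw [he]
  exact hK hq (hs m) (by linarith [ee_le m]) (ee_pos m).le (by ring)

/-- **The construction.** -/
theorem construct [CompleteSpace X] {s : ℕ → X} {D B R : ℝ} (hD0 : 0 ≤ D)
    (hD : ∀ (a : ℕ → ℝ) (N n : ℕ), n < N → |a n| ≤ D * ‖VV s a N‖)
    (hB : ∀ (a : ℕ → ℝ) (N n : ℕ), n ≤ N → ‖VV s a n‖ ≤ B * ‖VV s a N‖)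
    (hR : ∀ n, ‖s n‖ ≤ R) :
    ∃ (f : X → X), (∀ (x y : X) (t : ℝ), f (t • x + (1 - t) • y) = t • f x + (1 - t) • f y) ∧
      (∀ x ∈ closure (convexHull ℝ (Set.range s)), f x ∈ closure (convexHull ℝ (Set.range s))) ∧
      (∀ (p : ℕ), ∀ x ∈ closure (convexHull ℝ (Set.range s)),
        ∀ y ∈ closure (convexHull ℝ (Set.range s)), ‖f^[p] x - f^[p] y‖ ≤ 2 * B * ‖x - y‖) ∧
      ∀ x ∈ closure (convexHull ℝ (Set.range s)), f x ≠ x := by
  classical
  obtain ⟨u, hu1, hu2⟩ := exists_fun hD hD0
  have hR0 : 0 ≤ R := (norm_nonneg _).trans (hR 0)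
  set x : ℕ → X := fun j => s (j + 1) - s j with hx
  have hxn : ∀ j, ‖x j‖ ≤ 2 * R := fun j =>
    (norm_sub_le _ _).trans (by linarith [hR (j + 1), hR j])
  have hu1' : ∀ i j, u j (x i) = if i = j then 1 else 0 := hu1
  -- the operator
  let g : ℕ → X →L[ℝ] X := fun j => ee j • (u j).smulRight (x j)
  have hgs : Summable g := by
    refine Summable.of_norm_bounded (g := fun j => ee j * (D * (2 * R)))
      (ee_summable.mul_right _) fun j => ?_
    rw [norm_smul, Real.norm_of_nonneg (ee_pos j).le, ContinuousLinearMap.norm_smulRight_apply]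
    exact mul_le_mul_of_nonneg_left (mul_le_mul (hu2 j) (hxn j) (norm_nonneg _) hD0) (ee_pos j).le
  let G : X →L[ℝ] X := ∑' j, g j
  have hG : ∀ v, HasSum (fun j => (ee j * u j v) • x j) (G v) := by
    intro v
    have h1 := (ContinuousLinearMap.apply ℝ X v).hasSum hgs.hasSum
    have h2 : (fun j => (ee j * u j v) • x j) =
        fun j => (ContinuousLinearMap.apply ℝ X v) (g j) := by
      funext j
      change _ = ee j • (u j v • x j)
      rw [smul_smul]
    rw [h2]
    exact h1
  have hGx : ∀ i, G (x i) = ee i • x i := by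
    intro i
    refine (hG (x i)).unique ?_
    have h1 := hasSum_single (f := fun j => (ee j * u j (x i)) • x j) i (fun j hj => by
      change (ee j * u j (x i)) • x j = 0
      rw [hu1', if_neg hj.symm, mul_zero, zero_smul])
    simpa [hu1'] using h1
  have hcs : Summable fun j => ee j • x j := by
    refine Summable.of_norm_bounded (g := fun j => ee j * (2 * R))
      (ee_summable.mul_right _) fun j => ?_
    rw [norm_smul, Real.norm_of_nonneg (ee_pos j).le]
    exact mul_le_mul_of_nonneg_left (hxn j) (ee_pos j).le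
  let c : X := ∑' j, ee j • x j
  have huG : ∀ i v, u i (G v) = ee i * u i v := by
    intro i v
    have h1 := (u i).hasSum (hG v)
    refine h1.unique ?_
    have h2 := hasSum_single (f := fun j => u i ((ee j * u j v) • x j)) i (fun j hj => by
      change u i ((ee j * u j v) • x j) = 0
      rw [map_smul, hu1', if_neg hj, smul_zero])
    simpa [hu1'] using h2
  have huc : ∀ i, u i c = ee i := by
    intro i
    have h1 := (u i).hasSum hcs.hasSum
    refine h1.unique ?_
    have h2 := hasSum_single (f := fun j => u i (ee j • x j)) i (fun j hj => by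
      change u i (ee j • x j) = 0
      rw [map_smul, hu1', if_neg hj, smul_zero])
    simpa [hu1'] using h2
  let T : X →L[ℝ] X := ContinuousLinearMap.id ℝ X - G
  have hTv : ∀ v, T v = v - G v := fun v => rfl
  let f : X → X := fun v => s 0 + c + T (v - s 0)
  have hf : ∀ v, f v = s 0 + c + T (v - s 0) := fun v => rfl
  set K : Set X := closure (convexHull ℝ (Set.range s)) with hK
  have hKc : Convex ℝ K := (convex_convexHull ℝ _).closure
  have hKcl : IsClosed K := isClosed_closure
  have hsK : ∀ n, s n ∈ K := fun n => subset_closure (subset_convexHull ℝ _ ⟨n, rfl⟩)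
  have hfc : Continuous f := by
    change Continuous fun v => s 0 + c + T (v - s 0)
    fun_prop
  have hfa : ∀ (x y : X) (t : ℝ), f (t • x + (1 - t) • y) = t • f x + (1 - t) • f y := by
    intro v w t
    have e : t • v + (1 - t) • w - s 0 = t • (v - s 0) + (1 - t) • (w - s 0) := by module
    rw [hf, hf, hf, e, map_add, map_smul, map_smul]
    module
  -- minimality of `K`
  have hKmin : ∀ A : Set X, IsClosed A → Convex ℝ A → (∀ n, s n ∈ A) → K ⊆ A := by
    intro A h1 h2 h3
    refine closure_minimal (convexHull_min ?_ h2) h1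
    rintro _ ⟨n, rfl⟩
    exact h3 n
  -- the images of the points `s n`
  have hsum : ∀ n, s n - s 0 = ∑ j ∈ range n, x j := by
    intro n
    exact (sum_range_sub s n).symm
  have hfs : ∀ n, f (s n) ∈ K := by
    intro n
    have h1 : f (s n) = s n + (c - ∑ j ∈ range n, ee j • x j) := by
      have e : G (s n - s 0) = ∑ j ∈ range n, ee j • x j := by
        rw [hsum, map_sum]
        exact sum_congr rfl fun j _ => hGx j
      rw [hf, hTv, e]
      abel
    have h2 : Tendsto (fun m => s n + ∑ j ∈ Ico n m, ee j • (s (j + 1) - s j)) atTop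
        (𝓝 (f (s n))) := by
      rw [h1]
      refine Tendsto.const_add _ ?_
      have h3 : Tendsto (fun m => ∑ j ∈ range m, ee j • x j - ∑ j ∈ range n, ee j • x j) atTop
          (𝓝 (c - ∑ j ∈ range n, ee j • x j)) := hcs.hasSum.tendsto_sum_nat.sub_const _
      refine h3.congr' ?_
      filter_upwards [eventually_ge_atTop n] with m hm
      rw [sum_Ico_eq_sub _ hm]
    refine hKcl.mem_of_tendsto h2 ?_
    filter_upwards [eventually_ge_atTop n] with m hm
    exact mem_hull hKc hsK n m hm
  have hmaps : ∀ v ∈ K, f v ∈ K := by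
    refine hKmin {v | f v ∈ K} (hKcl.preimage hfc) ?_ hfs
    intro v hv w hw a b ha hb hab
    have hb' : b = 1 - a := by linarith
    change f (a • v + b • w) ∈ K
    rw [hb', hfa]
    exact hKc hv hw ha (by linarith) (by ring)
  -- the closed span
  let Y : Submodule ℝ X := Submodule.span ℝ (Set.range x)
  have hVV : ∀ v ∈ Y, ∃ (a : ℕ → ℝ) (N : ℕ), v = VV s a N ∧ ∀ j, N ≤ j → a j = 0 := by
    intro v hv
    rw [Finsupp.mem_span_range_iff_exists_finsupp] at hv
    obtain ⟨l, hl⟩ := hv
    obtain ⟨N, hN, hV⟩ := VV_of_finset s l.support (fun i => l i)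
    refine ⟨fun i => if i ∈ l.support then l i else 0, N, ?_, fun j hj => ?_⟩
    · rw [hV, ← hl]
      rfl
    · refine if_neg fun hc => ?_
      exact absurd (hN j hc) (not_lt.2 hj)
  have hKY : ∀ v ∈ K, v - s 0 ∈ closure (Y : Set X) := by
    refine hKmin {v | v - s 0 ∈ closure (Y : Set X)}
      (isClosed_closure.preimage (by fun_prop)) ?_ ?_
    · intro v hv w hw a b ha hb hab
      change a • v + b • w - s 0 ∈ closure (Y : Set X)
      have e : a • v + b • w - s 0 = a • (v - s 0) + b • (w - s 0) := by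
        have hb' : b = 1 - a := by linarith
        rw [hb']
        module
      rw [e]
      have hYc : Convex ℝ (closure (Y : Set X)) := Y.convex.closure
      exact hYc hv hw ha hb hab
    · intro n
      refine subset_closure ?_
      change s n - s 0 ∈ Y
      rw [hsum]
      exact Submodule.sum_mem _ fun j _ => Submodule.subset_span ⟨j, rfl⟩
  -- powers of `T`
  have hTx : ∀ (p : ℕ) (i : ℕ), (T ^ p) (x i) = (1 - ee i) ^ p • x i := by
    intro p
    induction p with
    | zero => intro i; simp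
    | succ p ih =>
      intro i
      rw [pow_succ, mul_apply_eq_comp, hTv, hGx, pow_succ, mul_smul]
      have e : x i - ee i • x i = (1 - ee i) • x i := by module
      rw [e, map_smul, ih, smul_comm]
  have hTVV : ∀ (p : ℕ) (a : ℕ → ℝ) (N : ℕ),
      (T ^ p) (VV s a N) = VV s (fun j => (1 - ee j) ^ p * a j) N := by
    intro p a N
    unfold VV
    rw [map_sum]
    refine sum_congr rfl fun j _ => ?_
    rw [map_smul]
    have := hTx p j
    simp only [hx] at this
    rw [this, smul_smul, mul_comm]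
  have hTY : ∀ (p : ℕ), ∀ v ∈ closure (Y : Set X), ‖(T ^ p) v‖ ≤ 2 * B * ‖v‖ := by
    intro p
    have hcl : IsClosed {v : X | ‖(T ^ p) v‖ ≤ 2 * B * ‖v‖} :=
      isClosed_le (by fun_prop) (by fun_prop)
    refine closure_minimal ?_ hcl
    intro v hv
    obtain ⟨a, N, rfl, -⟩ := hVV v hv
    change ‖(T ^ p) (VV s a N)‖ ≤ _
    rw [hTVV]
    refine mult_bound hB (fun j => (1 - ee j) ^ p) (monotone_nat_of_le_succ fun j => ?_)
      (fun j => ?_) (fun j => ?_) a N
    · exact pow_le_pow_left₀ (by linarith [ee_le j]) (by linarith [ee_anti j]) p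
    · exact pow_nonneg (by linarith [ee_le j]) p
    · exact pow_le_one₀ (by linarith [ee_le j]) (by linarith [ee_pos j])
  have hiter : ∀ (p : ℕ) (v w : X), f^[p] v - f^[p] w = (T ^ p) (v - w) := by
    intro p
    induction p with
    | zero => intro v w; simp
    | succ p ih =>
      intro v w
      rw [Function.iterate_succ_apply, Function.iterate_succ_apply, ih, pow_succ,
        mul_apply_eq_comp]
      congr 1
      rw [hf, hf, add_sub_add_left_eq_sub, ← map_sub, sub_sub_sub_cancel_right]
  refine ⟨f, hfa, hmaps, fun p v hv w hw => ?_, fun v hv hfix => ?_⟩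
  · rw [hiter]
    refine hTY p _ ?_
    have h1 := hKY v hv
    have h2 := hKY w hw
    have e : v - w = (v - s 0) - (w - s 0) := by abel
    rw [e]
    exact Y.topologicalClosure.sub_mem h1 h2
  · -- no fixed point
    have h1 : ∀ i, u i (v - s 0) = 1 := by
      intro i
      have h3 : v - s 0 = c + ((v - s 0) - G (v - s 0)) := by
        have h4 := hfix
        rw [hf, hTv] at h4
        nth_rw 1 [← h4]
        abel
      have h5 := congrArg (u i) h3
      rw [map_add, huc, map_sub (u i) (v - s 0) (G (v - s 0)), huG] at h5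
      have h6 : ee i * u i (v - s 0) = ee i * 1 := by linarith
      exact mul_left_cancel₀ (ee_pos i).ne' h6
    obtain ⟨w, hw, hvw⟩ := Metric.mem_closure_iff.1 (hKY v hv) (1 / (D + 1)) (by positivity)
    obtain ⟨a, N, rfl, hN⟩ := hVV w hw
    have h7 : u N (VV s a N) = 0 := by
      unfold VV
      rw [map_sum]
      refine sum_eq_zero fun j hj => ?_
      rw [map_smul, hu1, if_neg (mem_range.1 hj).ne, smul_zero]
    have h8 : |u N ((v - s 0) - VV s a N)| ≤ D * ‖(v - s 0) - VV s a N‖ :=
      ((u N).le_opNorm _).trans (mul_le_mul_of_nonneg_right (hu2 N) (norm_nonneg _))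
    rw [map_sub, h7, h1, sub_zero, abs_one] at h8
    rw [dist_eq_norm] at hvw
    have h9 : D * ‖(v - s 0) - VV s a N‖ ≤ D * (1 / (D + 1)) :=
      mul_le_mul_of_nonneg_left hvw.le hD0
    have h10 : D * (1 / (D + 1)) < 1 := by
      rw [mul_one_div, div_lt_one (by positivity)]
      linarith
    linarith

end Pool.Agent.Q197.WC
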