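import Mathlib.Analysis.Normed.Module.DoubleDual
import Mathlib.Analysis.Normed.Module.HahnBanach
import Mathlib.Analysis.Normed.Module.FiniteDimension
import Mathlib.Analysis.Normed.Operator.NNNorm
import Mathlib.Analysis.LocallyConvex.WeakSpace
import Mathlib.Tactic

/-!
# Selection of a basic sequence of differences in a set which is not weakly compact
-/

set_option autoImplicit false

namespace Pool.Agent.Q197.WC

open Finset Filter Topology NormedSpace

variable {X : Type*} [NormedAddCommGroup X] [NormedSpace ℝ X]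

/-- Finitely many members of a norming family norm a finite-dimensional subspace up to the factor
two. -/
lemma exists_norming {ι W : Type*} [NormedAddCommGroup W] [NormedSpace ℝ W] (g : ι → W → ℝ)
    (hg : ∀ i, Continuous (g i)) (hs : ∀ i (a : ℝ) (w : W), g i (a • w) = a * g i w)
    (hn : ∀ w : W, ‖w‖ = 1 → ∃ i, 1 / 2 < |g i w|) (i₀ : ι)
    (E : Submodule ℝ W) [FiniteDimensional ℝ E] :
    ∃ Φ : Finset ι, ∀ z ∈ E, ∃ i ∈ Φ, ‖z‖ ≤ 2 * |g i z| := by
  classical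
  have hK : IsCompact (Metric.sphere (0 : E) 1) := isCompact_sphere _ _
  let U : ι → Set E := fun i => {z | 1 / 2 < |g i z|}
  have hU : ∀ i, IsOpen (U i) := by
    intro i
    exact isOpen_lt continuous_const (continuous_abs.comp ((hg i).comp continuous_subtype_val))
  have hcov : Metric.sphere (0 : E) 1 ⊆ ⋃ i, U i := by
    intro z hz
    have h1 : ‖(z : W)‖ = 1 := by simpa using hz
    obtain ⟨i, hi⟩ := hn z h1
    exact Set.mem_iUnion.2 ⟨i, hi⟩
  obtain ⟨t, ht⟩ := hK.elim_finite_subcover U hU hcov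
  refine ⟨insert i₀ t, fun z hz => ?_⟩
  by_cases hz0 : z = 0
  · exact ⟨i₀, mem_insert_self _ _, by rw [hz0, norm_zero]; positivity⟩
  · have hn : 0 < ‖z‖ := norm_pos_iff.2 hz0
    have h1 : (‖z‖⁻¹ • ⟨z, hz⟩ : E) ∈ Metric.sphere (0 : E) 1 := by
      rw [mem_sphere_zero_iff_norm, norm_smul, norm_inv, norm_norm]
      exact inv_mul_cancel₀ hn.ne'
    obtain ⟨i, hi⟩ := Set.mem_iUnion.1 (ht h1)
    obtain ⟨hit, hi2⟩ := Set.mem_iUnion.1 hi
    refine ⟨i, mem_insert_of_mem hit, ?_⟩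
    change 1 / 2 < |g i (‖z‖⁻¹ • z)| at hi2
    rw [hs, abs_mul, abs_of_pos (inv_pos.2 hn), inv_mul_eq_div, lt_div_iff₀ hn] at hi2
    linarith

variable {W : Type*} [NormedAddCommGroup W] [NormedSpace ℝ W]

/-- The selection. -/
lemma exists_select (C : Set X) (J : X →ₗᵢ[ℝ] W) (ev : StrongDual ℝ X → W →ₗ[ℝ] ℝ)
    (hevc : ∀ φ, Continuous (ev φ))
    (hnorm : ∀ w : W, ‖w‖ = 1 → ∃ φ : StrongDual ℝ X, ‖φ‖ ≤ 1 ∧ 1 / 2 < |ev φ w|) (xx : W)
    (happ : ∀ (Φ : Finset (StrongDual ℝ X)) (η : ℝ), 0 < η →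
      ∃ s ∈ C, ∀ φ ∈ Φ, |φ s - ev φ xx| < η)
    (η : ℕ → ℝ) (hη : ∀ n, 0 < η n) :
    ∃ (s : ℕ → X) (Φ : ℕ → Finset (StrongDual ℝ X)), (∀ n, s n ∈ C) ∧
      (∀ n, ∀ φ ∈ Φ n, ‖φ‖ ≤ 1) ∧
      (∀ n, ∀ z ∈ Submodule.span ℝ (insert xx (J '' (s '' {i | i ≤ n}))), ∃ φ ∈ Φ n,
        ‖z‖ ≤ 2 * |ev φ z|) ∧
      ∀ n, ∀ φ ∈ Φ n, ∀ i, n < i → |φ (s i) - ev φ xx| < η i := by
  classical
  have hN : ∀ S : Finset X, ∃ Φ : Finset (StrongDual ℝ X), (∀ φ ∈ Φ, ‖φ‖ ≤ 1) ∧
      ∀ z ∈ Submodule.span ℝ (insert xx (J '' (S : Set X))), ∃ φ ∈ Φ, ‖z‖ ≤ 2 * |ev φ z| := by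
    intro S
    have hf : (insert xx (J '' (S : Set X))).Finite := (S.finite_toSet.image _).insert _
    have : FiniteDimensional ℝ (Submodule.span ℝ (insert xx (J '' (S : Set X)))) :=
      FiniteDimensional.span_of_finite ℝ hf
    obtain ⟨Φ, hΦ⟩ := exists_norming (ι := {φ : StrongDual ℝ X // ‖φ‖ ≤ 1})
      (fun φ z => ev φ.1 z) (fun φ => hevc φ.1) (fun φ a w => (ev φ.1).map_smul a w)
      (fun w hw => by
        obtain ⟨φ, h2, h3⟩ := hnorm w hw
        exact ⟨⟨φ, h2⟩, h3⟩) ⟨0, by rw [norm_zero]; exact zero_le_one⟩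
      (Submodule.span ℝ (insert xx (J '' (S : Set X))))
    refine ⟨Φ.image Subtype.val, ?_, fun z hz => ?_⟩
    · intro φ hφ
      obtain ⟨ψ, -, rfl⟩ := mem_image.1 hφ
      exact ψ.2
    · obtain ⟨φ, h1, h2⟩ := hΦ z hz
      exact ⟨φ.1, mem_image_of_mem _ h1, h2⟩
  choose N hN1 hN2 using hN
  choose pick hp1 hp2 using fun (Φ : Finset (StrongDual ℝ X)) (n : ℕ) => happ Φ (η n) (hη n)
  let st : ℕ → Finset X × Finset (StrongDual ℝ X) := fun n => Nat.rec (∅, ∅)
    (fun n p => (insert (pick p.2 n) p.1, p.2 ∪ N (insert (pick p.2 n) p.1))) n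
  have hst : ∀ n, st (n + 1) = (insert (pick (st n).2 n) (st n).1,
    (st n).2 ∪ N (insert (pick (st n).2 n) (st n).1)) := fun n => rfl
  let s : ℕ → X := fun n => pick (st n).2 n
  have hS : ∀ n, st (n + 1) = (insert (s n) (st n).1, (st n).2 ∪ N (insert (s n) (st n).1)) :=
    hst
  have h1 : ∀ n i, i < n → s i ∈ (st n).1 := by
    intro n
    induction n with
    | zero => intro i hi; exact absurd hi (Nat.not_lt_zero i)
    | succ n ih =>
      intro i hi
      rw [hS]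
      rcases Nat.lt_succ_iff_lt_or_eq.1 hi with h | h
      · exact mem_insert_of_mem (ih i h)
      · rw [h]
        exact mem_insert_self _ _
  have h2 : ∀ n, (st n).2 ⊆ (st (n + 1)).2 := by
    intro n
    rw [hS]
    exact subset_union_left
  have h3 : ∀ n m, n ≤ m → (st n).2 ⊆ (st m).2 := fun n m h => monotone_nat_of_le_succ h2 h
  refine ⟨s, fun n => N (st (n + 1)).1, fun n => hp1 _ _, fun n φ hφ => hN1 _ φ hφ, ?_, ?_⟩
  · intro n z hz
    refine hN2 _ z (Submodule.span_mono ?_ hz)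
    refine Set.insert_subset_insert (Set.image_mono ?_)
    rintro _ ⟨i, hi, rfl⟩
    exact h1 (n + 1) i (Nat.lt_succ_of_le hi)
  · intro n φ hφ i hi
    refine hp2 _ i φ (h3 (n + 1) i hi ?_)
    rw [hS]
    refine mem_union_right _ ?_
    change φ ∈ N (st (n + 1)).1 at hφ
    rw [hS] at hφ
    exact hφ

/-- A closed convex bounded set which is not weakly compact has a weak-star limit point in the
bidual at a positive distance to the space. -/
lemma exists_bidual [CompleteSpace X] (C : Set X) (hcl : IsClosed C) (hconv : Convex ℝ C)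
    (hb : Bornology.IsBounded C) (hw : ¬ IsCompact (toWeakSpace ℝ X '' C)) :
    ∃ (xx : StrongDual ℝ (StrongDual ℝ X)) (d : ℝ), 0 < d ∧ (∀ x : X, d ≤ ‖xx - inclusionInDoubleDual ℝ X x‖) ∧
      ∀ (Φ : Finset (StrongDual ℝ X)) (η : ℝ), 0 < η → ∃ s ∈ C, ∀ φ ∈ Φ, |φ s - xx φ| < η := by
  have hC : closure (toWeakSpace ℝ X '' C) = toWeakSpace ℝ X '' C := by
    rw [← hconv.toWeakSpace_closure ℝ, hcl.closure_eq]
  have h1 : ¬ closure (inclusionInDoubleDualWeak ℝ X '' (toWeakSpace ℝ X '' C)) ⊆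
      Set.range (inclusionInDoubleDualWeak ℝ X) := by
    intro h
    apply hw
    rw [← hC]
    refine isCompact_closure_of_isBounded ℝ X _ ?_ h
    rw [Set.preimage_image_eq _ (toWeakSpace ℝ X).injective]
    exact hb
  obtain ⟨z, hz1, hz2⟩ := Set.not_subset.1 h1
  let xx : StrongDual ℝ (StrongDual ℝ X) := WeakDual.toStrongDual z
  have hxx : ∀ φ : StrongDual ℝ X, xx φ = z φ := fun φ => rfl
  have hcR : IsClosed (Set.range (inclusionInDoubleDual ℝ X)) := by
    have h2 : Isometry (inclusionInDoubleDualLi (E := X) ℝ) := LinearIsometry.isometry _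
    exact h2.isClosedEmbedding.isClosed_range
  have hnot : xx ∉ Set.range (inclusionInDoubleDual ℝ X) := by
    rintro ⟨x, hx⟩
    apply hz2
    refine ⟨toWeakSpace ℝ X x, ?_⟩
    apply ContinuousLinearMap.ext
    intro φ
    change _ = z φ
    rw [← hxx, ← hx]
    rfl
  have hne : (Set.range (inclusionInDoubleDual ℝ X)).Nonempty := ⟨inclusionInDoubleDual ℝ X 0, Set.mem_range_self 0⟩
  have hpos : 0 < Metric.infDist xx (Set.range (inclusionInDoubleDual ℝ X)) :=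
    (hcR.notMem_iff_infDist_pos hne).1 hnot
  refine ⟨xx, _, hpos, fun x => ?_, fun Φ η hη => ?_⟩
  · have h5 := Metric.infDist_le_dist_of_mem (x := xx)
      (Set.mem_range_self (f := inclusionInDoubleDual ℝ X) x)
    exact h5.trans (le_of_eq (dist_eq_norm (E := StrongDual ℝ (StrongDual ℝ X)) _ _))
  · let W : Set (WeakDual ℝ (StrongDual ℝ X)) := {y | ∀ φ ∈ Φ, |y φ - z φ| < η}
    have hW : IsOpen W := by
      have : W = ⋂ φ ∈ Φ, {y : WeakDual ℝ (StrongDual ℝ X) | |y φ - z φ| < η} := by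
        ext y
        simp [W]
      rw [this]
      refine isOpen_biInter_finset fun φ _ => ?_
      have hc : Continuous fun y : WeakDual ℝ (StrongDual ℝ X) => y φ := WeakDual.eval_continuous φ
      exact isOpen_lt ((hc.sub continuous_const).abs) continuous_const
    obtain ⟨y, hy1, hy2⟩ := mem_closure_iff.1 hz1 W hW (fun φ _ => by simpa using hη)
    obtain ⟨_, ⟨s, hs, rfl⟩, rfl⟩ := hy2
    refine ⟨s, hs, fun φ hφ => ?_⟩
    exact hy1 φ hφ

/-- The same, with the bidual replaced by an abstract space. -/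
lemma exists_abstract.{u} {X : Type u} [NormedAddCommGroup X] [NormedSpace ℝ X] [CompleteSpace X]
    (C : Set X) (hcl : IsClosed C) (hconv : Convex ℝ C)
    (hb : Bornology.IsBounded C) (hw : ¬ IsCompact (toWeakSpace ℝ X '' C)) :
    ∃ (W : Type u) (_ : NormedAddCommGroup W) (_ : NormedSpace ℝ W) (J : X →ₗᵢ[ℝ] W)
      (ev : StrongDual ℝ X → W →ₗ[ℝ] ℝ) (xx : W) (d : ℝ), (∀ φ, Continuous (ev φ)) ∧
      (∀ w : W, ‖w‖ = 1 → ∃ φ : StrongDual ℝ X, ‖φ‖ ≤ 1 ∧ 1 / 2 < |ev φ w|) ∧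
      (∀ φ x, ev φ (J x) = φ x) ∧ 0 < d ∧ (∀ x : X, d ≤ ‖xx - J x‖) ∧
      ∀ (Φ : Finset (StrongDual ℝ X)) (η : ℝ), 0 < η → ∃ s ∈ C, ∀ φ ∈ Φ, |φ s - ev φ xx| < η := by
  obtain ⟨xx, d, hd, hdist, happ⟩ := exists_bidual C hcl hconv hb hw
  refine ⟨StrongDual ℝ (StrongDual ℝ X), inferInstance, inferInstance,
    inclusionInDoubleDualLi (E := X) ℝ, fun φ =>
    { toFun := fun z => z φ
      map_add' := fun _ _ => rfl
      map_smul' := fun _ _ => rfl }, xx, d, fun φ => ?_, fun w hw => ?_, fun φ x => rfl, hd,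
      ?_, ?_⟩
  · refine (LipschitzWith.of_dist_le_mul (K := ‖φ‖₊) fun z w => ?_).continuous
    have h1 := (z - w).le_opNorm φ
    have h3 : dist z w = ‖z - w‖ := dist_eq_norm (E := StrongDual ℝ (StrongDual ℝ X)) _ _
    have h4 : dist (z φ) (w φ) = ‖(z - w) φ‖ := dist_eq_norm _ _
    change dist (z φ) (w φ) ≤ _
    rw [h3, h4, coe_nnnorm, mul_comm]
    exact h1
  · obtain ⟨φ, h2, h3⟩ := ContinuousLinearMap.exists_lt_apply_of_lt_opNorm
      w (r := 1 / 2) (by rw [hw]; norm_num)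
    exact ⟨φ, h2.le, h3⟩
  · exact hdist
  · exact happ

end Pool.Agent.Q197.WC
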